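import Pool.Agent.Y64.RR.Stm

set_option autoImplicit false

/-!
Project RR (helper64), job RR-TOP: final assembly in the Riemann sphere.
-/

namespace Pool.Agent.Y337.RR

open Pool.Agent.Y64.RR Filter Topology

theorem norm_det (x : ℂ) (hx : ‖x‖ = 1) (n : ℕ) :
    ‖aa x (n + 1) * bb x n - aa x n * bb x (n + 1)‖ = 1 := by
  induction n with
  | zero => simp [aa, bb]
  | succ n ih =>
    have e : aa x (n + 1 + 1) * bb x (n + 1) - aa x (n + 1) * bb x (n + 1 + 1) =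
        -(x ^ (n + 1)) * (aa x (n + 1) * bb x n - aa x n * bb x (n + 1)) := by
      have h1 : aa x (n + 1 + 1) = aa x (n + 1) + x ^ (n + 1) * aa x n := by rw [aa]
      have h2 : bb x (n + 1 + 1) = bb x (n + 1) + x ^ (n + 1) * bb x n := by rw [bb]
      rw [h1, h2]
      ring
    rw [e, norm_mul, ih, norm_neg, norm_pow, hx, one_pow, one_mul]

theorem ee_arg (x : ℂ) (hx : ‖x‖ = 1) : ee (x.arg / (2 * Real.pi)) = x := by
  have h := Complex.norm_mul_exp_arg_mul_I x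
  rw [hx, Complex.ofReal_one, one_mul] at h
  unfold ee
  have e : 2 * (Real.pi : ℂ) * ((x.arg / (2 * Real.pi) : ℝ) : ℂ) * Complex.I =
      (x.arg : ℂ) * Complex.I := by
    have hp : (Real.pi : ℂ) ≠ 0 := Complex.ofReal_ne_zero.2 Real.pi_ne_zero
    push_cast
    field_simp
  rw [e, h]

theorem irr (x : ℂ) (hx : ‖x‖ = 1) (hr : ∀ n : ℕ, 0 < n → x ^ n ≠ 1) :
    Irrational (x.arg / (2 * Real.pi)) := by
  rintro ⟨q, hq⟩
  have h := ee_arg x hx
  rw [← hq] at h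
  refine hr q.den q.den_pos ?_
  rw [← h]
  unfold ee
  rw [← Complex.exp_nat_mul, Complex.exp_eq_one_iff]
  refine ⟨q.num, ?_⟩
  have h1 : ((q.den : ℂ)) * ((q : ℝ) : ℂ) = (q.num : ℂ) := by
    have h2 : (q.den : ℚ) * q = q.num := by
      rw [mul_comm]
      exact Rat.mul_den_eq_num q
    have h3 : ((q.den : ℚ) : ℂ) * ((q : ℚ) : ℂ) = ((q.num : ℚ) : ℂ) := by
      rw [← h2]
      push_cast
      ring
    push_cast at h3 ⊢
    exact h3
  linear_combination (2 * (Real.pi : ℂ) * Complex.I) * h1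

theorem bounded (h1 : StSCH) (h2 : StMain) (h3 : StDIO) (x : ℂ) (hx : ‖x‖ = 1)
    (hr : ∀ n : ℕ, 0 < n → x ^ n ≠ 1) : ∃ C : ℝ, 1 ≤ C ∧ ∀ M : ℕ, ∃ m : ℕ, M ≤ m ∧ 1 ≤ m ∧
      ‖aa x m‖ ≤ C ∧ ‖bb x m‖ ≤ C ∧ ‖aa x (m + 1)‖ ≤ C ∧ ‖bb x (m + 1)‖ ≤ C := by
  obtain ⟨C₁, hC₁⟩ := h3 _ (irr x hx hr)
  obtain ⟨C₂, hC₂⟩ := h2 C₁
  refine ⟨max 1 (4 * C₂), le_max_left _ _, fun M => ?_⟩
  obtain ⟨m, c, δ, E, hm, hP⟩ := hC₁ M
  have hZ := hC₂ E m c δ _ hP
  have hS := h1 _ m hP.hm C₂ hZ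
  rw [ee_arg x hx] at hS
  have h0 : 0 ≤ C₂ := (norm_nonneg _).trans (hZ 0 0 (by norm_num) (by norm_num))
  obtain ⟨s1, s2, s3, s4⟩ := hS
  refine ⟨m, hm, hP.hm, ?_, ?_, ?_, ?_⟩
  · exact (s1.trans (by linarith)).trans (le_max_right _ _)
  · exact (s2.trans (by linarith)).trans (le_max_right _ _)
  · exact s3.trans (le_max_right _ _)
  · exact s4.trans (le_max_right _ _)

/-- two quotients with determinant of norm one -/
theorem quot_diff {a b a' b' : ℂ} {C : ℝ} (hC : 1 ≤ C) (hD : ‖a' * b - a * b'‖ = 1) (hb : b ≠ 0)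
    (hb' : b' ≠ 0) (h1 : ‖b‖ ≤ C) (h2 : ‖b'‖ ≤ C) : 1 / C ^ 2 ≤ ‖a' / b' - a / b‖ := by
  have e : a' / b' - a / b = (a' * b - a * b') / (b' * b) := by
    field_simp
  have hn : 0 < ‖b‖ := norm_pos_iff.2 hb
  have hn' : 0 < ‖b'‖ := norm_pos_iff.2 hb'
  rw [e, norm_div, hD, norm_mul]
  refine one_div_le_one_div_of_le (mul_pos hn' hn) ?_
  rw [sq]
  exact mul_le_mul h2 h1 hn.le (by linarith)

theorem top (h1 : StSCH) (h2 : StMain) (h3 : StDIO) : StTop := by
  intro x hx hr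
  rintro ⟨κ, hκ⟩
  obtain ⟨C, hC, hinf⟩ := bounded h1 h2 h3 x hx hr
  have hC2 : 0 < C ^ 2 := by positivity
  -- an eventual property of two consecutive indices
  have key : ∀ P : ℕ → Prop, (∀ᶠ n in atTop, P n) → ∃ m : ℕ, P m ∧ P (m + 1) ∧
      ‖aa x (m + 1)‖ ≤ C ∧ ‖bb x (m + 1)‖ ≤ C ∧ ‖aa x (m + 2)‖ ≤ C ∧ ‖bb x (m + 2)‖ ≤ C := by
    intro P hP
    obtain ⟨M, hM⟩ := eventually_atTop.1 hP
    obtain ⟨m, hm, hm1, b1, b2, b3, b4⟩ := hinf (M + 1)
    obtain ⟨k, rfl⟩ := Nat.exists_eq_add_of_le' hm1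
    exact ⟨k, hM k (by omega), hM (k + 1) (by omega), b1, b2, b3, b4⟩
  have hdet : ∀ n, ‖aa x (n + 2) * bb x (n + 1) - aa x (n + 1) * bb x (n + 2)‖ = 1 := fun n =>
    norm_det x hx (n + 1)
  induction κ using OnePoint.rec with
  | infty =>
    have hev : ∀ᶠ n in atTop, aa x (n + 1) ≠ 0 ∧ ‖bb x (n + 1) / aa x (n + 1)‖ ≤ 1 / (4 * C ^ 2) := by
      have hopen : IsOpen ((((↑) : ℂ → OnePoint ℂ) '' (Metric.closedBall (0 : ℂ) (4 * C ^ 2)))ᶜ) := by
        rw [OnePoint.isOpen_compl_image_coe]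
        exact ⟨Metric.isClosed_closedBall, isCompact_closedBall _ _⟩
      have hmem : (OnePoint.infty : OnePoint ℂ) ∈
          (((↑) : ℂ → OnePoint ℂ) '' (Metric.closedBall (0 : ℂ) (4 * C ^ 2)))ᶜ := by
        rintro ⟨z, -, hz⟩
        exact OnePoint.coe_ne_infty z hz
      filter_upwards [hκ (hopen.mem_nhds hmem)] with n hn
      rw [Set.mem_preimage, Set.mem_compl_iff, approx] at hn
      by_cases hb : bb x (n + 1) = 0
      · constructor
        · intro ha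
          have := hdet n
          rw [ha, hb, mul_zero, zero_mul, sub_zero, norm_zero] at this
          exact zero_ne_one this
        · rw [hb, zero_div, norm_zero]
          positivity
      · rw [if_neg hb] at hn
        have hbig : 4 * C ^ 2 < ‖aa x (n + 1) / bb x (n + 1)‖ := by
          by_contra hle
          push Not at hle
          exact hn ⟨_, mem_closedBall_zero_iff.2 hle, rfl⟩
        have hpos : 0 < ‖aa x (n + 1) / bb x (n + 1)‖ := lt_trans (by positivity) hbig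
        constructor
        · intro ha
          rw [ha, zero_div, norm_zero] at hpos
          exact lt_irrefl _ hpos
        · rw [← inv_div, norm_inv, ← one_div]
          exact one_div_le_one_div_of_le (by positivity) hbig.le
    obtain ⟨m, ⟨p1, p2⟩, ⟨q1, q2⟩, b1, b2, b3, b4⟩ := key _ hev
    have hD : ‖bb x (m + 2) * aa x (m + 1) - bb x (m + 1) * aa x (m + 2)‖ = 1 := by
      rw [← hdet m, ← norm_neg]
      congr 1
      ring
    have h4 := quot_diff hC hD p1 q1 b1 b3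
    have h5 : ‖bb x (m + 2) / aa x (m + 2) - bb x (m + 1) / aa x (m + 1)‖ ≤
        1 / (4 * C ^ 2) + 1 / (4 * C ^ 2) := (norm_sub_le _ _).trans (add_le_add q2 p2)
    have h6 : 1 / (4 * C ^ 2) + 1 / (4 * C ^ 2) = (1 / 2) * (1 / C ^ 2) := by
      field_simp
      norm_num
    have h7 : 0 < 1 / C ^ 2 := by positivity
    linarith
  | coe k =>
    have hne : ∀ᶠ n in atTop, bb x (n + 1) ≠ 0 := by
      have hopen : IsOpen ({OnePoint.infty}ᶜ : Set (OnePoint ℂ)) := isOpen_compl_singleton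
      have hmem : (k : OnePoint ℂ) ∈ ({OnePoint.infty}ᶜ : Set (OnePoint ℂ)) := by
        rw [Set.mem_compl_iff, Set.mem_singleton_iff]
        exact OnePoint.coe_ne_infty k
      filter_upwards [hκ (hopen.mem_nhds hmem)] with n hn hb
      rw [Set.mem_preimage, Set.mem_compl_iff, Set.mem_singleton_iff, approx, if_pos hb] at hn
      exact hn rfl
    have hlim : Tendsto (fun n => aa x (n + 1) / bb x (n + 1)) atTop (𝓝 k) := by
      rw [OnePoint.isOpenEmbedding_coe.tendsto_nhds_iff]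
      refine hκ.congr' ?_
      filter_upwards [hne] with n hn
      rw [approx, if_neg hn]
      rfl
    have hclose : ∀ᶠ n in atTop, dist (aa x (n + 1) / bb x (n + 1)) k < 1 / (4 * C ^ 2) :=
      Metric.tendsto_nhds.1 hlim _ (by positivity)
    obtain ⟨m, ⟨p1, p2⟩, ⟨q1, q2⟩, b1, b2, b3, b4⟩ := key _ (hne.and hclose)
    have h4 := quot_diff hC (hdet m) p1 q1 b2 b4
    have h5 : ‖aa x (m + 2) / bb x (m + 2) - aa x (m + 1) / bb x (m + 1)‖ ≤
        1 / (4 * C ^ 2) + 1 / (4 * C ^ 2) := by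
      rw [← dist_eq_norm]
      refine (dist_triangle_right _ _ k).trans (add_le_add q2.le p2.le)
    have h6 : 1 / (4 * C ^ 2) + 1 / (4 * C ^ 2) = (1 / 2) * (1 / C ^ 2) := by
      field_simp
      norm_num
    have h7 : 0 < 1 / C ^ 2 := by positivity
    linarith

end Pool.Agent.Y337.RR
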